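import Pool.Agent.Helper86.QA.St2

/-!
# Project QD part A (MP_d112a4_gt), module PD2: proper discontinuity

The proof: for `x' = γ x` (heights `t, t'`) one has `|p|² + |q|² ≤ (t/t') (1 + |z'|² + t'²)`, and the
same for `γ⁻¹` and `x'`; the two factors `t/t'` and `t'/t` cancel in the product.
-/

set_option autoImplicit false

open MeasureTheory Matrix Set Topology
open scoped ENNReal ComplexConjugate

namespace Pool.Agent.Helper38.QA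

open Pool.Agent.Helper86.QA
open Pool.Agent.Helper35.PM (hs)

private theorem det_eq (g : SL) : g 0 0 * g 1 1 - g 0 1 * g 1 0 = 1 := by
  have h := g.det_coe
  rwa [Matrix.det_fin_two] at h

private theorem inv00 (g : SL) : (g⁻¹ : SL) 0 0 = g 1 1 := by
  rw [Matrix.SpecialLinearGroup.SL2_inv_expl]; rfl

private theorem inv01 (g : SL) : (g⁻¹ : SL) 0 1 = -g 0 1 := by
  rw [Matrix.SpecialLinearGroup.SL2_inv_expl]; rfl

private theorem inv10 (g : SL) : (g⁻¹ : SL) 1 0 = -g 1 0 := by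
  rw [Matrix.SpecialLinearGroup.SL2_inv_expl]; rfl

private theorem inv11 (g : SL) : (g⁻¹ : SL) 1 1 = g 0 0 := by
  rw [Matrix.SpecialLinearGroup.SL2_inv_expl]; rfl

private theorem hs_eq (g : SL) :
    hs (g : Mat) = ‖g 0 0‖ ^ 2 + ‖g 0 1‖ ^ 2 + (‖g 1 0‖ ^ 2 + ‖g 1 1‖ ^ 2) := by
  simp [hs, Fin.sum_univ_two]

private theorem hs_inv (g : SL) : hs ((g⁻¹ : SL) : Mat) = hs (g : Mat) := by
  rw [hs_eq, hs_eq, inv00, inv01, inv10, inv11, norm_neg, norm_neg]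
  ring

private theorem hs_nonneg (g : SL) : 0 ≤ hs (g : Mat) := by
  rw [hs_eq]; positivity

private theorem alg (q p a c : ℂ) (t : ℝ) :
    Complex.normSq (q * conj p + a * conj c * (t : ℂ) ^ 2) + t ^ 2 * Complex.normSq (a * p - c * q) =
      (Complex.normSq q + Complex.normSq a * t ^ 2) *
        (Complex.normSq p + Complex.normSq c * t ^ 2) := by
  simp only [Complex.normSq_apply, Complex.add_re, Complex.add_im, Complex.mul_re, Complex.mul_im,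
    Complex.sub_re, Complex.sub_im, Complex.conj_re, Complex.conj_im, pow_two, Complex.ofReal_re,
    Complex.ofReal_im]
  ring

/-- the main formula -/
private theorem key (g : SL) (x : Pt) (hden : 0 < den g x) :
    (1 + ‖(ga g x).1‖ ^ 2 + (ga g x).2 ^ 2) * den g x =
      den g x + (‖g 0 0 * x.1 + g 0 1‖ ^ 2 + ‖g 0 0‖ ^ 2 * x.2 ^ 2) := by
  set p : ℂ := g 1 0 * x.1 + g 1 1 with hp
  set q : ℂ := g 0 0 * x.1 + g 0 1 with hq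
  have hdet : g 0 0 * p - g 1 0 * q = 1 := by
    have := det_eq g
    rw [hp, hq]
    linear_combination this
  have hD : den g x = Complex.normSq p + Complex.normSq (g 1 0) * x.2 ^ 2 := by
    rw [← Complex.sq_norm, ← Complex.sq_norm]
    rfl
  have h1 := alg q p (g 0 0) (g 1 0) x.2
  rw [hdet, map_one, mul_one, ← hD] at h1
  have h2 : ‖(ga g x).1‖ ^ 2 = Complex.normSq (q * conj p + g 0 0 * conj (g 1 0) * (x.2 : ℂ) ^ 2) /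
      den g x ^ 2 := by
    show ‖(q * conj p + g 0 0 * conj (g 1 0) * (x.2 : ℂ) ^ 2) / (den g x : ℂ)‖ ^ 2 = _
    rw [norm_div, div_pow, Complex.sq_norm, Complex.norm_real, Real.norm_of_nonneg hden.le]
  have h3 : (ga g x).2 = x.2 / den g x := rfl
  rw [h2, h3, Complex.sq_norm, Complex.sq_norm]
  have h4 : (1 + Complex.normSq (q * conj p + g 0 0 * conj (g 1 0) * (x.2 : ℂ) ^ 2) / den g x ^ 2 +
      (x.2 / den g x) ^ 2) * den g x = den g x +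
      (Complex.normSq (q * conj p + g 0 0 * conj (g 1 0) * (x.2 : ℂ) ^ 2) + x.2 ^ 2) / den g x := by
    field_simp
    ring
  rw [h4, h1]
  field_simp

/-- `|p|² + |q|² + (|a|² + |c|²) t² = (t/t') (1 + |z'|² + t'²)` -/
private theorem key2 (hACT : StACT) (g : SL) (x : Pt) (hx : x ∈ up) :
    (‖g 1 0 * x.1 + g 1 1‖ ^ 2 + ‖g 0 0 * x.1 + g 0 1‖ ^ 2 + (‖g 0 0‖ ^ 2 + ‖g 1 0‖ ^ 2) * x.2 ^ 2) *
      (ga g x).2 = x.2 * (1 + ‖(ga g x).1‖ ^ 2 + (ga g x).2 ^ 2) := by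
  obtain ⟨hden, -, -⟩ := hACT.1 g x hx
  have h1 := key g x hden
  have h2 : x.2 = (ga g x).2 * den g x := by
    show x.2 = x.2 / den g x * den g x
    field_simp
  have h3 : den g x = ‖g 1 0 * x.1 + g 1 1‖ ^ 2 + ‖g 1 0‖ ^ 2 * x.2 ^ 2 := rfl
  calc (‖g 1 0 * x.1 + g 1 1‖ ^ 2 + ‖g 0 0 * x.1 + g 0 1‖ ^ 2 +
        (‖g 0 0‖ ^ 2 + ‖g 1 0‖ ^ 2) * x.2 ^ 2) * (ga g x).2
      = (ga g x).2 * (den g x + (‖g 0 0 * x.1 + g 0 1‖ ^ 2 + ‖g 0 0‖ ^ 2 * x.2 ^ 2)) := by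
        rw [h3]; ring
    _ = (ga g x).2 * den g x * (1 + ‖(ga g x).1‖ ^ 2 + (ga g x).2 ^ 2) := by rw [← h1]; ring
    _ = x.2 * (1 + ‖(ga g x).1‖ ^ 2 + (ga g x).2 ^ 2) := by rw [← h2]

private theorem key3 (hACT : StACT) (g : SL) (x : Pt) (hx : x ∈ up) :
    (‖g 1 0 * x.1 + g 1 1‖ ^ 2 + ‖g 0 0 * x.1 + g 0 1‖ ^ 2) * (ga g x).2 ≤
      x.2 * (1 + ‖(ga g x).1‖ ^ 2 + (ga g x).2 ^ 2) := by
  rw [← key2 hACT g x hx]
  have h1 : 0 < (ga g x).2 := (hACT.1 g x hx).2.1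
  apply mul_le_mul_of_nonneg_right _ h1.le
  have h2 : 0 ≤ (‖g 0 0‖ ^ 2 + ‖g 1 0‖ ^ 2) * x.2 ^ 2 := by positivity
  linarith

/-- the same for the inverse -/
private theorem key4 (hACT : StACT) (g : SL) (x : Pt) (hx : x ∈ up) :
    (‖(g⁻¹ : SL) 1 0 * (ga g x).1 + (g⁻¹ : SL) 1 1‖ ^ 2 +
      ‖(g⁻¹ : SL) 0 0 * (ga g x).1 + (g⁻¹ : SL) 0 1‖ ^ 2) * x.2 ≤
      (ga g x).2 * (1 + ‖x.1‖ ^ 2 + x.2 ^ 2) := by
  have h1 := key3 hACT g⁻¹ (ga g x) (hACT.1 g x hx).2.1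
  have h2 : ga g⁻¹ (ga g x) = x := by
    rw [← hACT.2.1 g⁻¹ g x hx, inv_mul_cancel, hACT.2.2.1 x hx]
  rwa [h2] at h1

private theorem prod_bound {c₀ c₁ H t t' M M' : ℝ} (hc₀ : 0 < c₀) (hc₁ : 0 < c₁) (hH : 0 ≤ H)
    (ht : 0 < t) (ht' : 0 < t') (hM : 0 ≤ M)
    (h0 : c₀ * H * t ≤ t' * M) (h1 : c₁ * H * t' ≤ t * M') :
    H ≤ 1 + M * M' / (c₀ * c₁) := by
  have h2 : (c₀ * H * t) * (c₁ * H * t') ≤ (t' * M) * (t * M') :=
    mul_le_mul h0 h1 (by positivity) (by positivity)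
  have h3 : (c₀ * c₁) * (H * H) ≤ M * M' := by
    have h4 : (t * t') * ((c₀ * c₁) * (H * H)) ≤ (t * t') * (M * M') := by
      calc (t * t') * ((c₀ * c₁) * (H * H)) = (c₀ * H * t) * (c₁ * H * t') := by ring
        _ ≤ (t' * M) * (t * M') := h2
        _ = (t * t') * (M * M') := by ring
    exact le_of_mul_le_mul_left h4 (by positivity)
  have h5 : H * H ≤ M * M' / (c₀ * c₁) := by
    rw [le_div_iff₀ (by positivity)]
    linarith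
  nlinarith [sq_nonneg (H - 1)]

private theorem sq_bound {z : ℂ} {t C T : ℝ} (hz : ‖z‖ ≤ C) (ht0 : 0 < t) (ht : t ≤ T) :
    1 + ‖z‖ ^ 2 + t ^ 2 ≤ 1 + C ^ 2 + T ^ 2 := by
  have h1 : ‖z‖ ^ 2 ≤ C ^ 2 := pow_le_pow_left₀ (norm_nonneg z) hz 2
  have h2 : t ^ 2 ≤ T ^ 2 := pow_le_pow_left₀ ht0.le ht 2
  linarith

private theorem sub_sq {b q a z : ℂ} (h : b = q - a * z) : ‖b‖ ^ 2 ≤ 2 * ‖q‖ ^ 2 +
    2 * (‖a‖ ^ 2 * ‖z‖ ^ 2) := by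
  have h1 : ‖b‖ ≤ ‖q‖ + ‖a‖ * ‖z‖ := by
    rw [h, ← norm_mul]
    exact norm_sub_le _ _
  have h2 : ‖b‖ ^ 2 ≤ (‖q‖ + ‖a‖ * ‖z‖) ^ 2 := pow_le_pow_left₀ (norm_nonneg b) h1 2
  nlinarith [sq_nonneg (‖q‖ - ‖a‖ * ‖z‖)]

theorem hPD2 (hACT : StACT) (_hCHV : StCHV) (_hPOI : StPOI) (hPD1 : StPD1) : StPD2 := by
  intro Γ _ ρ A B hKD K K' T T' hK hKs hK' hK's
  obtain ⟨c₁, hc₁, h1⟩ := hPD1 Γ ρ A B hKD K hK hKs
  obtain ⟨c₀, hc₀, h0⟩ := hPD1 Γ ρ A B hKD K' hK' hK's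
  obtain ⟨C, hC⟩ := hK.isBounded.exists_norm_le
  obtain ⟨C', hC'⟩ := hK'.isBounded.exists_norm_le
  -- the estimate for the inverse
  have h0' : ∀ (γ : Γ) (x : Pt), x ∈ up → (au ρ γ x).1 ∈ K' →
      c₀ * hs (ρ γ) * x.2 ≤ (au ρ γ x).2 * (1 + ‖x.1‖ ^ 2 + x.2 ^ 2) := by
    intro γ x hx hz
    have e1 := h0 γ⁻¹ _ hz
    rw [map_inv, hs_inv] at e1
    refine le_trans (mul_le_mul_of_nonneg_right e1 (le_of_lt hx)) ?_
    exact key4 hACT (ρ γ) x hx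
  have h1' : ∀ (γ : Γ) (x : Pt), x ∈ up → x.1 ∈ K →
      c₁ * hs (ρ γ) * (au ρ γ x).2 ≤ x.2 * (1 + ‖(au ρ γ x).1‖ ^ 2 + (au ρ γ x).2 ^ 2) := by
    intro γ x hx hz
    have e1 := h1 γ _ hz
    have e2 : 0 < (au ρ γ x).2 := (hACT.1 (ρ γ) x hx).2.1
    exact (mul_le_mul_of_nonneg_right e1 e2.le).trans (key3 hACT (ρ γ) x hx)
  refine ⟨?_, ?_, ?_⟩
  · apply (hKD.disc (1 + (1 + C ^ 2 + T ^ 2) * (1 + C' ^ 2 + T' ^ 2) / (c₀ * c₁))).subset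
    rintro γ ⟨x, hx, hz, ht, hz', ht'⟩
    have hx0 : 0 < x.2 := hx
    have hx'0 : 0 < (au ρ γ x).2 := (hACT.1 (ρ γ) x hx).2.1
    apply prod_bound hc₀ hc₁ (hs_nonneg _) hx0 hx'0 (by positivity)
    · exact (h0' γ x hx hz').trans (mul_le_mul_of_nonneg_left (sq_bound (hC _ hz) hx0 ht) hx'0.le)
    · exact (h1' γ x hx hz).trans (mul_le_mul_of_nonneg_left (sq_bound (hC' _ hz') hx'0 ht') hx0.le)
  · intro K₃ hK₃ hK₃s
    obtain ⟨C₃, hC₃⟩ := hK₃.isBounded.exists_norm_le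
    obtain ⟨t₀, ht₀, hlow⟩ := hK₃.exists_forall_le' continuous_snd.continuousOn (a := (0 : ℝ))
      (fun x hx => hK₃s hx)
    have hb1 : ∀ x ∈ K₃, ‖x.1‖ ≤ C₃ := fun x hx => (norm_fst_le x).trans (hC₃ x hx)
    have hb2 : ∀ x ∈ K₃, x.2 ≤ C₃ := fun x hx =>
      (le_abs_self _).trans ((norm_snd_le x).trans (hC₃ x hx))
    constructor
    · apply (hKD.disc (T' * (1 + C₃ ^ 2 + C₃ ^ 2) / (c₀ * t₀))).subset
      rintro γ ⟨x, hx, hz', ht'⟩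
      have hxu : x ∈ up := hK₃s hx
      have hx0 : 0 < x.2 := hxu
      have hx'0 : 0 < (au ρ γ x).2 := (hACT.1 (ρ γ) x hxu).2.1
      show hs (ρ γ) ≤ _
      rw [le_div_iff₀ (by positivity)]
      have hH := hs_nonneg (ρ γ)
      have hM := sq_bound (hb1 x hx) hx0 (hb2 x hx)
      calc hs (ρ γ) * (c₀ * t₀) = c₀ * hs (ρ γ) * t₀ := by ring
        _ ≤ c₀ * hs (ρ γ) * x.2 := mul_le_mul_of_nonneg_left (hlow x hx) (by positivity)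
        _ ≤ (au ρ γ x).2 * (1 + ‖x.1‖ ^ 2 + x.2 ^ 2) := h0' γ x hxu hz'
        _ ≤ T' * (1 + C₃ ^ 2 + C₃ ^ 2) :=
            mul_le_mul ht' hM (by positivity) (hx'0.le.trans ht')
    · set W : ℝ := C₃ * (1 + C₃ ^ 2 + C₃ ^ 2) / t₀ with hW
      apply (hKD.disc (W / t₀ ^ 2 * (1 + 2 * C₃ ^ 2) + 2 * W)).subset
      rintro γ ⟨x, hx, hx'⟩
      have hxu : x ∈ up := hK₃s hx
      have hx0 : 0 < x.2 := hxu
      have hx'0 : 0 < (au ρ γ x).2 := hK₃s hx'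
      show hs (ρ γ) ≤ _
      set g : SL := ρ γ with hg
      have hk := key2 hACT g x hxu
      set P : ℝ := ‖g 1 0 * x.1 + g 1 1‖ ^ 2 with hP
      set Q : ℝ := ‖g 0 0 * x.1 + g 0 1‖ ^ 2 with hQ
      set S : ℝ := ‖g 0 0‖ ^ 2 + ‖g 1 0‖ ^ 2 with hS
      have hP0 : 0 ≤ P := by rw [hP]; positivity
      have hQ0 : 0 ≤ Q := by rw [hQ]; positivity
      have hS0 : 0 ≤ S := by rw [hS]; positivity
      have hM := sq_bound (hb1 _ hx') hx'0 (hb2 _ hx')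
      have hC₃0 : 0 ≤ C₃ := (norm_nonneg _).trans (hb1 x hx)
      have htot : P + Q + S * x.2 ^ 2 ≤ W := by
        rw [hW, le_div_iff₀ ht₀]
        calc (P + Q + S * x.2 ^ 2) * t₀ ≤ (P + Q + S * x.2 ^ 2) * (ga g x).2 :=
              mul_le_mul_of_nonneg_left (hlow _ hx') (by positivity)
          _ = x.2 * (1 + ‖(ga g x).1‖ ^ 2 + (ga g x).2 ^ 2) := hk
          _ ≤ C₃ * (1 + C₃ ^ 2 + C₃ ^ 2) := mul_le_mul (hb2 x hx) hM (by positivity) hC₃0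
      have ht2 : t₀ ^ 2 ≤ x.2 ^ 2 := pow_le_pow_left₀ ht₀.le (hlow x hx) 2
      have hSW : S ≤ W / t₀ ^ 2 := by
        rw [le_div_iff₀ (by positivity)]
        have := mul_le_mul_of_nonneg_left ht2 hS0
        linarith
      have hPQ : P + Q ≤ W := by
        have : 0 ≤ S * x.2 ^ 2 := by positivity
        linarith
      have hb : ‖g 0 1‖ ^ 2 ≤ 2 * Q + 2 * (‖g 0 0‖ ^ 2 * ‖x.1‖ ^ 2) :=
        sub_sq (q := g 0 0 * x.1 + g 0 1) (by ring)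
      have hd : ‖g 1 1‖ ^ 2 ≤ 2 * P + 2 * (‖g 1 0‖ ^ 2 * ‖x.1‖ ^ 2) :=
        sub_sq (q := g 1 0 * x.1 + g 1 1) (by ring)
      have hx1 : ‖x.1‖ ^ 2 ≤ C₃ ^ 2 := pow_le_pow_left₀ (norm_nonneg _) (hb1 x hx) 2
      have hSx : S * ‖x.1‖ ^ 2 ≤ S * C₃ ^ 2 := mul_le_mul_of_nonneg_left hx1 hS0
      have hSW2 : S * (1 + 2 * C₃ ^ 2) ≤ W / t₀ ^ 2 * (1 + 2 * C₃ ^ 2) :=
        mul_le_mul_of_nonneg_right hSW (by positivity)
      have e1 : S * ‖x.1‖ ^ 2 = ‖g 0 0‖ ^ 2 * ‖x.1‖ ^ 2 + ‖g 1 0‖ ^ 2 * ‖x.1‖ ^ 2 := by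
        rw [hS]; ring
      have e2 : hs (g : Mat) = S + ‖g 0 1‖ ^ 2 + ‖g 1 1‖ ^ 2 := by
        rw [hs_eq, hS]; ring
      rw [e2]
      linarith
  · -- the boundary
    apply (hKD.disc (1 + (1 + C ^ 2) * (1 + C' ^ 2) / (c₀ * c₁))).subset
    rintro γ ⟨ξ, hξ, hξ'⟩
    show hs (ρ γ) ≤ _
    have hne : ρ γ 1 0 * ξ + ρ γ 1 1 ≠ 0 := by
      rcases hKs hξ with h | h
      · exact (hKD.mpA γ ξ h).1
      · exact (hKD.mpB γ ξ h).1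
    have e1 := h1 γ ξ hξ
    have e0 := h0 γ⁻¹ _ hξ'
    rw [map_inv, hs_inv, inv00, inv01, inv10, inv11] at e0
    set g : SL := ρ γ with hg
    set p : ℂ := g 1 0 * ξ + g 1 1 with hp
    set q : ℂ := g 0 0 * ξ + g 0 1 with hq
    have hmb : ab ρ γ ξ = q / p := rfl
    have hdet := det_eq g
    have hppos : 0 < ‖p‖ ^ 2 := by
      have := norm_pos_iff.2 hne
      positivity
    have d1 : -g 1 0 * ab ρ γ ξ + g 0 0 = 1 / p := by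
      rw [hmb]
      field_simp
      rw [hp, hq]
      linear_combination hdet
    have d2 : g 1 1 * ab ρ γ ξ + -g 0 1 = ξ / p := by
      rw [hmb]
      field_simp
      rw [hp, hq]
      linear_combination ξ * hdet
    rw [d1, d2, norm_div, norm_div, norm_one, div_pow, div_pow] at e0
    have hq2 : ‖q‖ ^ 2 = ‖ab ρ γ ξ‖ ^ 2 * ‖p‖ ^ 2 := by
      rw [hmb, norm_div, div_pow]
      field_simp
    have hξn : ‖ξ‖ ^ 2 ≤ C ^ 2 := pow_le_pow_left₀ (norm_nonneg _) (hC ξ hξ) 2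
    have hξn' : ‖ab ρ γ ξ‖ ^ 2 ≤ C' ^ 2 := pow_le_pow_left₀ (norm_nonneg _) (hC' _ hξ') 2
    apply prod_bound (t := ‖p‖ ^ 2) (t' := 1) hc₀ hc₁ (hs_nonneg _) hppos one_pos
      (by positivity)
    · have e2 : c₀ * hs (g : Mat) * ‖p‖ ^ 2 ≤ (1 ^ 2 / ‖p‖ ^ 2 + ‖ξ‖ ^ 2 / ‖p‖ ^ 2) * ‖p‖ ^ 2 :=
        mul_le_mul_of_nonneg_right e0 hppos.le
      have e3 : (1 ^ 2 / ‖p‖ ^ 2 + ‖ξ‖ ^ 2 / ‖p‖ ^ 2) * ‖p‖ ^ 2 = 1 + ‖ξ‖ ^ 2 := by
        field_simp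
      rw [e3] at e2
      linarith
    · rw [hq2] at e1
      have e4 : ‖ab ρ γ ξ‖ ^ 2 * ‖p‖ ^ 2 ≤ C' ^ 2 * ‖p‖ ^ 2 :=
        mul_le_mul_of_nonneg_right hξn' hppos.le
      linarith

end Pool.Agent.Helper38.QA
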